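import Pool.Agent.Lib.MP_438f30_pr.HAll

open MeasureTheory Pool.Agent.GL

/-- Curves of finite length for a Liouville quantum gravity metric have Euclidean Hausdorff
dimension at least `1 + min 1 ((1 - ξ Q) / ξ) ^ 4 / 10 ^ 58`. -/
theorem Pool.Agent.Results.MP_438f30_pr.CurveDim.result (ξ Q : ℝ)
    (D : ((R2 → ℝ) → ℝ) → R2 → R2 → ℝ) (hξ : 0 < ξ) (hQ : 0 ≤ Q) (h1 : ξ * Q < 1)
    (hD : IsLQG ξ Q D) (Ω : Type) [MeasurableSpace Ω] (P : Measure Ω) [IsProbabilityMeasure P]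
    (Φ : (R2 → ℝ) → Ω → ℝ) (hΦ : IsFld P Φ) :
    ∀ᵐ ω ∂P, ∀ (U : Set R2) (f : R2 → ℝ), IsOpen U → ContinuousOn f U →
      ∀ (p : ℝ → R2) (l : ℝ), 0 ≤ l → p 0 ≠ p l →
        (∀ s ∈ Set.Icc 0 l, ∀ t ∈ Set.Icc 0 l,
          wey (D fun φ => Φ φ ω) (fun x => Real.exp (ξ * f x)) U (p s) (p t) ≤
            ENNReal.ofReal |s - t|) →
        ENNReal.ofReal (1 + min 1 ((1 - ξ * Q) / ξ) ^ 4 / 10 ^ 58) ≤ dimH (p '' Set.Icc 0 l) := by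
  filter_upwards [allHD ξ Q D hξ hQ h1 hD Ω P Φ hΦ, hD.met Ω P Φ hΦ] with ω a b U f hU hf
  exact loc mg1 (mg2 mg1) _ _ b a U _ hU
    (Real.continuous_exp.comp_continuousOn (continuousOn_const.mul hf)) fun _ _ => Real.exp_pos _
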