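import Pool.Agent.Lib.MP_438f30_pr.AllB
import Pool.Agent.Lib.MP_438f30_pr.PartA
import Pool.Agent.Lib.MP_438f30_pr.Ta
import Pool.Agent.Lib.MP_438f30_pr.Mn
import Pool.Agent.Lib.MP_438f30_pr.U.AllU
import Pool.Agent.Lib.MP_438f30_pr.DefsG

open MeasureTheory Filter Topology Pool.Agent.Lib.MP_a0a493_pr Pool.Agent.GL

/-- For small `ξ`, with probability tending to one, geodesics of Liouville first passage
percolation at mesh `2^(-n)` exist, visit at least `2^((1 + c ξ^(4/3)) n)` sites and have at most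
`2^((1 + C ξ^(4/3)) n)` steps. -/
theorem Pool.Agent.Results.MP_438f30_pr.GeoExponent.result
    (ρ : EuclideanSpace ℝ (Fin 2) → ℝ) (hρ : Test ρ)
    (hrad : ∀ x y, ‖x‖ = ‖y‖ → ρ x = ρ y) (h1 : ∫ x, ρ x = 1) :
    ∃ c C ξ₀ : ℝ, 0 < c ∧ 0 < C ∧ 0 < ξ₀ ∧ ∀ (Ω : Type) [MeasurableSpace Ω] (P : Measure Ω)
      [IsProbabilityMeasure P] (Φ : (EuclideanSpace ℝ (Fin 2) → ℝ) → Ω → ℝ), IsLGF P Φ →
      ∀ ξ : ℝ, 0 < ξ → ξ ≤ ξ₀ →
        Tendsto (fun n : ℕ => P {ω | ¬ ((∃ T x, IsBest n (fun v => ξ * phi Φ ρ n ω v) T x) ∧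
          ∀ T x, IsBest n (fun v => ξ * phi Φ ρ n ω v) T x →
            (2 : ℝ) ^ ((1 + c * ξ ^ (4 / 3 : ℝ)) * n) ≤ ((Finset.range (T + 1)).image x).card ∧
            (T : ℝ) ≤ 2 ^ ((1 + C * ξ ^ (4 / 3 : ℝ)) * n))}) atTop (𝓝 0) := by
  obtain ⟨c, a, hc, ha, hL⟩ := mainOf (ta partA tr lw pss) allTB lw era
  obtain ⟨C, b, hC, hb, hU⟩ := Pool.Agent.GU.allU ρ hρ hrad h1
  refine ⟨c, C, min a b, hc, hC, lt_min ha hb, fun Ω _ P _ Φ hΦ ξ h0 hξ => ?_⟩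
  have h := (hL Ω P Φ ρ hΦ hρ h1 ξ h0 (hξ.trans (min_le_left _ _))).add
    (hU Ω P Φ hΦ ξ h0 (hξ.trans (min_le_right _ _)))
  rw [add_zero] at h
  refine tendsto_of_tendsto_of_tendsto_of_le_of_le tendsto_const_nhds h (fun _ => bot_le)
    fun n => le_trans (measure_mono fun ω hω => ?_) (measure_union_le _ _)
  by_contra hn
  simp only [Set.mem_union, Set.mem_ofPred_eq, not_or, not_not, not_exists, not_and, not_lt] at hn
  exact hω ⟨hn.2.1, fun T x hx =>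
    ⟨hn.1 T x ⟨hx.1, fun T' x' hw _ => hx.2 T' x' hw⟩, hn.2.2 T x hx⟩⟩
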