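import Pool.Agent.Lib.MP_438f30_pr.GAll

open MeasureTheory Pool.Agent.GL

/-- Geodesics of a Liouville quantum gravity metric have Euclidean Hausdorff dimension at most
`ξ (Q - ξ + √(ξ² + 4 - 2 ξ Q)) - c` for a constant `c > 0`. -/
theorem Pool.Agent.Results.MP_438f30_pr.GeoUpper.result (ξ Q : ℝ)
    (D : ((R2 → ℝ) → ℝ) → R2 → R2 → ℝ) (hξ : 0 < ξ) (hQ : 0 ≤ Q) (h2 : ξ * Q < 2)
    (hD : IsLQG ξ Q D) :
    ∃ c > (0 : ℝ), ∀ (Ω : Type) [MeasurableSpace Ω] (P : Measure Ω) [IsProbabilityMeasure P]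
      (Φ : (R2 → ℝ) → Ω → ℝ), IsFld P Φ →
      ∀ᵐ ω ∂P, ∀ (U : Set R2) (f : R2 → ℝ), IsOpen U → ContinuousOn f U →
        ∀ (p : ℝ → R2) (l : ℝ), 0 ≤ l →
          (∀ s ∈ Set.Icc 0 l, ∀ t ∈ Set.Icc 0 l,
            wey (D fun φ => Φ φ ω) (fun x => Real.exp (ξ * f x)) U (p s) (p t) =
              ENNReal.ofReal |s - t|) →
          dimH (p '' Set.Icc 0 l) ≤
            ENNReal.ofReal (ξ * (Q - ξ + √(ξ ^ 2 + 4 - 2 * ξ * Q)) - c) :=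
  allUD ξ Q D hξ hQ h2 hD
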