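import Pool.Agent.Lib.MP_438f30_pr.C.All
import Pool.Agent.Lib.MP_438f30_pr.C.Inst
import Pool.Agent.Lib.MP_438f30_pr.C.Turn
import Pool.Agent.Lib.MP_438f30_pr.NAll

open MeasureTheory Pool.Agent.GL

/-- For small `ξ`, geodesics of the Liouville quantum gravity metric have Euclidean Hausdorff
dimension `1 + Θ (ξ ^ (4 / 3))`. -/
theorem Pool.Agent.Results.MP_438f30_pr.SmallGamma.result :
    ∃ c C ξ₀ : ℝ, 0 < c ∧ 0 < ξ₀ ∧ ∀ (ξ Q : ℝ) (D : ((R2 → ℝ) → ℝ) → R2 → R2 → ℝ),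
      0 < ξ → ξ ≤ ξ₀ → IsLQG ξ Q D → RotCov D →
      ∀ (Ω : Type) [MeasurableSpace Ω] (P : Measure Ω) [IsProbabilityMeasure P]
        (Φ : (R2 → ℝ) → Ω → ℝ), IsFld P Φ →
        ∀ᵐ ω ∂P, ∀ (U : Set R2) (f : R2 → ℝ), IsOpen U → ContinuousOn f U →
          ∀ (p : ℝ → R2) (l : ℝ), 0 < l →
            (∀ s ∈ Set.Icc 0 l, ∀ t ∈ Set.Icc 0 l,
              wey (D fun φ => Φ φ ω) (fun x => Real.exp (ξ * f x)) U (p s) (p t) =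
                ENNReal.ofReal |s - t|) →
            dimH (p '' Set.Icc 0 l) ∈ Set.Icc (ENNReal.ofReal (1 + c * ξ ^ (4 / 3 : ℝ)))
              (ENNReal.ofReal (1 + C * ξ ^ (4 / 3 : ℝ))) := by
  obtain ⟨c, x₀, c0, x0, h⟩ := allLowC
  obtain ⟨C, x₁, -, x1, h'⟩ := Pool.Agent.GC.allUp Pool.Agent.GC.inst
  refine ⟨c, C, min x₀ x₁, c0, lt_min x0 x1, fun ξ Q D hξ hx hD hR Ω _ P _ Φ hΦ => ?_⟩
  obtain ⟨hQ, h'⟩ := h' ξ Q D hξ (hx.trans (min_le_right _ _)) hD hR.isRot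
  filter_upwards [h ξ Q D hξ (hx.trans (min_le_left _ _)) hQ hD Ω P Φ hΦ, h' Ω P Φ hΦ] with ω a b
    U f hU hf p l hl hp
  refine ⟨a U f hU hf p l hl.le (fun e => ?_) fun s hs t ht => (hp s hs t ht).le,
    b U f hU hf p l hl.le hp⟩
  have k1 := hp 0 ⟨le_rfl, hl.le⟩ l ⟨hl.le, le_rfl⟩
  have k2 := hp 0 ⟨le_rfl, hl.le⟩ 0 ⟨le_rfl, hl.le⟩
  rw [← e, k2, sub_self, abs_zero, ENNReal.ofReal_zero, eq_comm, ENNReal.ofReal_eq_zero, zero_sub,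
    abs_neg, abs_of_pos hl] at k1
  exact k1.not_gt hl
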